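import Mathlib
import Pool.Agent.SB.LocSec

set_option autoImplicit false

/-! Abstract part (Banach algebra) of the local Lipschitz section. -/

namespace Pool.Agent.H82LS

open Set Metric Filter Topology
open scoped NNReal

variable {𝔸 : Type*} [NormedRing 𝔸] [NormedAlgebra ℝ 𝔸] [CompleteSpace 𝔸]

theorem exp_smul_mul (Z : 𝔸) (s t : ℝ) :
    NormedSpace.exp (s • Z) = NormedSpace.exp ((s - t) • Z) * NormedSpace.exp (t • Z) := by
  rw [← NormedSpace.exp_add_of_commute_of_mem_ball (𝕂 := ℝ)]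
  · rw [← add_smul]; congr 2; ring
  · exact ((Commute.refl Z).smul_left _).smul_right _
  · exact (NormedSpace.expSeries_radius_eq_top ℝ 𝔸).symm ▸ edist_lt_top _ _
  · exact (NormedSpace.expSeries_radius_eq_top ℝ 𝔸).symm ▸ edist_lt_top _ _

theorem exp_isUnit (Z : 𝔸) : IsUnit (NormedSpace.exp Z) := by
  let _ : NormedAlgebra ℚ 𝔸 := NormedAlgebra.restrictScalars ℚ ℝ 𝔸
  exact NormedSpace.isUnit_exp _

/-- A family of functionals, stable under right translations, is constant along `exp (t Z)` if its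
derivatives at the identity vanish on `Z`. -/
theorem const_of_deriv {ι : Type*} (T : ι → 𝔸 → ℝ) (T' : ι → 𝔸 →L[ℝ] ℝ)
    (hT : ∀ i, HasFDerivAt (T i) (T' i) 1)
    (htrans : ∀ i (P : 𝔸), IsUnit P → ∃ c : ℝ, ∃ j, ∀ A, T i (A * P) = c * T j A)
    (Z : 𝔸) (hZ : ∀ i, T' i Z = 0) (i : ι) : T i (NormedSpace.exp Z) = T i 1 := by
  have h0 : ∀ i, HasDerivAt (fun s : ℝ => T i (NormedSpace.exp (s • Z))) 0 0 := by
    intro i
    have e1 : HasDerivAt (fun s : ℝ => NormedSpace.exp (s • Z)) Z 0 := by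
      simpa using hasDerivAt_exp_smul_const (𝕂 := ℝ) Z (0 : ℝ)
    have e2 : HasFDerivAt (T i) (T' i) (NormedSpace.exp ((0 : ℝ) • Z)) := by
      have : NormedSpace.exp ((0 : ℝ) • Z) = 1 := by simp
      rw [this]
      exact hT i
    have e3 := e2.comp_hasDerivAt 0 e1
    rw [hZ i] at e3
    exact e3
  have hd : ∀ t : ℝ, HasDerivAt (fun s : ℝ => T i (NormedSpace.exp (s • Z))) 0 t := by
    intro t
    obtain ⟨c, j, hj⟩ := htrans i (NormedSpace.exp (t • Z)) (exp_isUnit _)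
    have h2 : HasDerivAt (fun s : ℝ => T j (NormedSpace.exp ((s - t) • Z))) 0 t := by
      have h3 : HasDerivAt (fun s : ℝ => T j (NormedSpace.exp (s • Z))) 0 (t - t) := by
        simpa using h0 j
      exact h3.comp_sub_const t t
    have h4 := h2.const_mul c
    rw [mul_zero] at h4
    refine h4.congr_of_eventuallyEq (Filter.Eventually.of_forall fun s => ?_)
    show T i (NormedSpace.exp (s • Z)) = c * T j (NormedSpace.exp ((s - t) • Z))
    rw [exp_smul_mul Z s t, hj]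
  have := is_const_of_deriv_eq_zero (fun t => (hd t).differentiableAt)
    (fun t => (hd t).deriv) 1 0
  simpa using this

omit [CompleteSpace 𝔸] in
/-- Finitely many functionals have the same common kernel as all of them. -/
theorem finite_family [FiniteDimensional ℝ 𝔸] {ι : Type*} (T' : ι → 𝔸 →L[ℝ] ℝ) :
    ∃ s : Finset ι, ∀ Z : 𝔸, (∀ i ∈ s, T' i Z = 0) → ∀ i, T' i Z = 0 := by
  classical
  let W : Finset ι → Submodule ℝ 𝔸 := fun s => ⨅ i ∈ s, LinearMap.ker (T' i).toLinearMap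
  have hW : ∀ s Z, Z ∈ W s ↔ ∀ i ∈ s, T' i Z = 0 := by
    intro s Z
    simp [W, Submodule.mem_iInf]
  obtain ⟨s, hs⟩ : ∃ s, ∀ s', Module.finrank ℝ (W s) ≤ Module.finrank ℝ (W s') := by
    obtain ⟨s, hs⟩ := (measure (fun s => Module.finrank ℝ (W s))).wf.has_min univ ⟨∅, trivial⟩
    exact ⟨s, fun s' => not_lt.1 (hs.2 s' trivial)⟩
  refine ⟨s, fun Z hZ φ => ?_⟩
  have h1 : W (insert φ s) ≤ W s := by
    intro Y hY
    rw [hW] at hY ⊢
    exact fun ψ hψ => hY ψ (Finset.mem_insert_of_mem hψ)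
  have h2 : W (insert φ s) = W s := Submodule.eq_of_le_of_finrank_le h1 (hs _)
  have h3 : Z ∈ W (insert φ s) := by
    rw [h2, hW]; exact hZ
  rw [hW] at h3
  exact h3 _ (Finset.mem_insert_self _ _)

omit [CompleteSpace 𝔸] in
/-- The abstract local section. -/
theorem abs_section [FiniteDimensional ℝ 𝔸] {V : Type*} [NormedAddCommGroup V] [NormedSpace ℝ V]
    [FiniteDimensional ℝ V] (Tv : 𝔸 → V) (D : 𝔸 →L[ℝ] V) (hTv : HasStrictFDerivAt Tv D 1) :
    ∃ U ∈ 𝓝 (1 : 𝔸), ∃ ρ > 0, ∃ K : ℝ≥0, ∃ Ξ : V → 𝔸, LipschitzOnWith K Ξ (ball (Tv 1) ρ) ∧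
      (∀ v ∈ ball (Tv 1) ρ, ‖Ξ v - 1‖ ≤ 1 / 2) ∧
      ∀ a ∈ U, ∃ Z Y : 𝔸, D Z = 0 ∧ a = NormedSpace.exp Z * NormedSpace.exp Y ∧
        Ξ (Tv (NormedSpace.exp Y)) = NormedSpace.exp Y := by
  obtain ⟨q, hq⟩ := Submodule.exists_isCompl (LinearMap.ker D.toLinearMap)
  have hinj : Function.Injective (D.toLinearMap.domRestrict q) := by
    rw [← LinearMap.ker_eq_bot, LinearMap.ker_eq_bot']
    intro y hy
    have h2 : (y : 𝔸) ∈ LinearMap.ker D.toLinearMap := by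
      rw [LinearMap.mem_ker]; exact hy
    have h3 : (y : 𝔸) ∈ LinearMap.ker D.toLinearMap ⊓ q := ⟨h2, y.2⟩
    rw [hq.inf_eq_bot, Submodule.mem_bot] at h3
    exact Subtype.ext h3
  obtain ⟨π₀, hπ₀⟩ := (D.toLinearMap.domRestrict q).exists_leftInverse_of_injective
    (LinearMap.ker_eq_bot.2 hinj)
  let π : V →L[ℝ] q := LinearMap.toContinuousLinearMap π₀
  have hπ : ∀ y : q, π (D y) = y := fun y => LinearMap.congr_fun hπ₀ y
  let G : q → q := fun y => π (Tv (NormedSpace.exp (y : 𝔸)) - Tv 1)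
  have hexp : HasStrictFDerivAt (fun y : q => NormedSpace.exp (y : 𝔸)) q.subtypeL 0 := by
    have a : HasStrictFDerivAt (NormedSpace.exp : 𝔸 → 𝔸) (1 : 𝔸 →L[ℝ] 𝔸) (q.subtypeL 0) := by
      rw [map_zero]; exact hasStrictFDerivAt_exp_zero
    exact a.comp (0 : q) q.subtypeL.hasStrictFDerivAt
  have hG : HasStrictFDerivAt G ((ContinuousLinearEquiv.refl ℝ q : q ≃L[ℝ] q) : q →L[ℝ] q) 0 := by
    have a2 : HasStrictFDerivAt Tv D (NormedSpace.exp ((0 : q) : 𝔸)) := by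
      have : NormedSpace.exp ((0 : q) : 𝔸) = 1 := by simp
      rw [this]
      exact hTv
    have a3 := a2.comp (0 : q) hexp
    have a5 := a3.sub_const (Tv 1)
    have a6 := (π.hasStrictFDerivAt
      (x := Tv (NormedSpace.exp ((0 : q) : 𝔸)) - Tv 1)).comp (0 : q) a5
    refine a6.congr_fderiv ?_
    ext y
    exact congrArg Subtype.val (hπ y)
  have hG0 : G 0 = 0 := by simp [G]
  let χ : q → q := hG.localInverse G _ 0
  have hχ : ∀ᶠ y in 𝓝 (0 : q), χ (G y) = y := hG.eventually_left_inverse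
  have hχ0 : χ 0 = 0 := by
    have := hχ.self_of_nhds
    rwa [hG0] at this
  have hχd : HasStrictFDerivAt χ
      (((ContinuousLinearEquiv.refl ℝ q : q ≃L[ℝ] q).symm : q ≃L[ℝ] q) : q →L[ℝ] q) (0 : q) := by
    have := hG.to_localInverse
    rwa [hG0] at this
  let Ξ : V → 𝔸 := fun v => NormedSpace.exp ((χ (π (v - Tv 1)) : q) : 𝔸)
  have hΞ : ∃ Ξ' : V →L[ℝ] 𝔸, HasStrictFDerivAt Ξ Ξ' (Tv 1) := by
    have b1 : HasStrictFDerivAt (fun v : V => π (v - Tv 1))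
        (π.comp (ContinuousLinearMap.id ℝ V)) (Tv 1) := by
      have c1 := (hasStrictFDerivAt_id (𝕜 := ℝ) (Tv 1)).sub_const (Tv 1)
      have c0 : HasStrictFDerivAt π π ((fun x : V => id x - Tv 1) (Tv 1)) := π.hasStrictFDerivAt
      have c2 := HasStrictFDerivAt.comp (f := fun x : V => id x - Tv 1) (Tv 1) c0 c1
      exact c2
    have hz : π (Tv 1 - Tv 1) = 0 := by simp
    have b2 : HasStrictFDerivAt χ
        (((ContinuousLinearEquiv.refl ℝ q : q ≃L[ℝ] q).symm : q ≃L[ℝ] q) : q →L[ℝ] q)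
        (π (Tv 1 - Tv 1)) := by rw [hz]; exact hχd
    have b3 := b2.comp (Tv 1) b1
    have b4 : HasStrictFDerivAt (fun y : q => NormedSpace.exp (y : 𝔸)) q.subtypeL
        (χ (π (Tv 1 - Tv 1))) := by rw [hz, hχ0]; exact hexp
    have b5 := HasStrictFDerivAt.comp (g := fun y : q => NormedSpace.exp (y : 𝔸)) (Tv 1) b4 b3
    exact ⟨_, b5⟩
  obtain ⟨Ξ', hΞ⟩ := hΞ
  have hΞ1 : Ξ (Tv 1) = 1 := by simp [Ξ, hχ0]
  obtain ⟨K, N, hN, hK⟩ := hΞ.exists_lipschitzOnWith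
  have hN2 : ∀ᶠ v in 𝓝 (Tv 1), ‖Ξ v - 1‖ ≤ 1 / 2 := by
    have hc := hΞ.continuousAt
    have := (Metric.tendsto_nhds.1 hc (1 / 2) (by norm_num))
    filter_upwards [this] with v hv
    rw [hΞ1, dist_eq_norm] at hv
    exact hv.le
  obtain ⟨ρ, hρ, hball⟩ := Metric.mem_nhds_iff.1 (inter_mem hN hN2)
  have hprod := Pool.Agent.SB.ls_prod (LinearMap.ker D.toLinearMap) q hq {y | χ (G y) = y} hχ
  refine ⟨_, hprod, ρ, hρ, K, Ξ, hK.mono fun v hv => (hball hv).1, fun v hv => (hball hv).2, ?_⟩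
  rintro a ⟨Z, hZ, Y, hY, rfl⟩
  refine ⟨Z, Y, hZ, rfl, ?_⟩
  show NormedSpace.exp ((χ (G Y) : q) : 𝔸) = _
  rw [hY]

end Pool.Agent.H82LS
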