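import Mathlib
import Pool.Agent.H87Star.Moment

set_option autoImplicit false

/-! Smooth functionals of `f ∘ A`. -/

namespace Pool.Agent.H82LS

open MeasureTheory Set Metric
open scoped ContDiff

/-- Euclidean space. -/
abbrev E (n : ℕ) := EuclideanSpace ℝ (Fin n)

/-- Test functions. -/
def Test {k : ℕ} (φ : E k → ℝ) : Prop := ContDiff ℝ ∞ φ ∧ HasCompactSupport φ

theorem contDiff_det {k : ℕ} {n : WithTop ℕ∞} :
    ContDiff ℝ n (fun P : E k →L[ℝ] E k => LinearMap.det (P : E k →ₗ[ℝ] E k)) := by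
  have h : (fun P : E k →L[ℝ] E k => LinearMap.det (P : E k →ₗ[ℝ] E k)) =
      fun P => ∑ σ : Equiv.Perm (Fin k), (Equiv.Perm.sign σ : ℤ) •
        ∏ i, (P (EuclideanSpace.basisFun (Fin k) ℝ i)) (σ i) := by
    funext P
    rw [← LinearMap.det_toMatrix (EuclideanSpace.basisFun (Fin k) ℝ).toBasis, Matrix.det_apply]
    refine Finset.sum_congr rfl fun σ _ => ?_
    congr 1
    refine Finset.prod_congr rfl fun i _ => ?_
    simp [LinearMap.toMatrix_apply]
  rw [h]
  refine ContDiff.sum fun σ _ => ?_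
  refine ContDiff.const_smul _ ?_
  refine contDiff_prod fun i _ => ?_
  have : (fun P : E k →L[ℝ] E k => (P (EuclideanSpace.basisFun (Fin k) ℝ i)) (σ i)) =
      fun P => ((EuclideanSpace.proj (σ i) : E k →L[ℝ] ℝ).comp
        (ContinuousLinearMap.apply ℝ (E k) (EuclideanSpace.basisFun (Fin k) ℝ i))) P := by
    funext P; simp
  rw [this]
  exact ContinuousLinearMap.contDiff _

theorem integral_comp_linear {k : ℕ} (P : E k →L[ℝ] E k)
    (hP : LinearMap.det (P : E k →ₗ[ℝ] E k) ≠ 0) (g : E k → ℝ) (hg : Continuous g) :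
    ∫ x, g x = |LinearMap.det (P : E k →ₗ[ℝ] E k)| * ∫ y, g (P y) := by
  have h1 := Measure.map_linearMap_addHaar_eq_smul_addHaar (μ := (volume : Measure (E k))) hP
  have h2 : ∫ y, g (P y) = ∫ x, g x ∂(Measure.map (P : E k →ₗ[ℝ] E k) volume) := by
    rw [integral_map]
    · rfl
    · exact P.continuous.measurable.aemeasurable
    · exact hg.aestronglyMeasurable
  rw [h2, h1, integral_smul_measure, ENNReal.toReal_ofReal (abs_nonneg _), smul_eq_mul, ← mul_assoc,
    abs_inv, mul_inv_cancel₀ (abs_ne_zero.2 hP), one_mul]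

theorem contDiffOn_G {k : ℕ} {f φ : E k → ℝ} (hf : Continuous f) (hφ : Test φ) :
    ContDiffOn ℝ 1 (fun P : E k →L[ℝ] E k => ∫ y, f y * φ (P y)) (ball 1 (1 / 2)) := by
  obtain ⟨R, hR⟩ := hφ.2.isCompact.isBounded.subset_closedBall (0 : E k)
  have hR' : ∀ x, φ x ≠ 0 → ‖x‖ ≤ R := by
    intro x hx
    have := hR (subset_tsupport φ (Function.mem_support.2 hx))
    simpa using this
  have key := contDiffOn_convolution_right_with_param_comp (𝕜 := ℝ) (μ := (volume : Measure (E k)))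
    (n := 1) (ContinuousLinearMap.mul ℝ ℝ) (s := ball (1 : E k →L[ℝ] E k) (1 / 2))
    (v := fun _ => (0 : E k)) contDiffOn_const (f := f)
    (g := fun P z => φ (P (-z))) (k := closedBall 0 (2 * R)) isOpen_ball
    (isCompact_closedBall 0 (2 * R)) ?_ hf.locallyIntegrable ?_
  · refine key.congr fun P _ => ?_
    simp [convolution, ContinuousLinearMap.mul_apply']
  · intro P x hP hx
    by_contra hne
    apply hx
    have h1 := hR' _ hne
    have h2 : ‖x‖ / 2 ≤ ‖P (-x)‖ := by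
      have h3 : ‖(P - 1) (-x)‖ ≤ 1 / 2 * ‖x‖ := by
        have := (P - 1).le_opNorm (-x)
        rw [norm_neg] at this
        refine this.trans ?_
        have h4 : ‖P - 1‖ ≤ 1 / 2 := by
          rw [← dist_eq_norm]; exact (mem_ball.1 hP).le
        gcongr
      have h5 : P (-x) = (P - 1) (-x) + (-x) := by simp
      have h6 : ‖x‖ ≤ ‖P (-x)‖ + ‖(P - 1) (-x)‖ := by
        have : x = -(P (-x)) + (P - 1) (-x) := by rw [h5]; simp
        calc ‖x‖ = ‖-(P (-x)) + (P - 1) (-x)‖ := by rw [← this]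
          _ ≤ ‖-(P (-x))‖ + ‖(P - 1) (-x)‖ := norm_add_le _ _
          _ = _ := by rw [norm_neg]
      linarith
    rw [mem_closedBall, dist_zero_right]
    linarith
  · have : ContDiff ℝ 1 (fun p : (E k →L[ℝ] E k) × E k => φ (p.1 (-p.2))) := by
      have h1 : ContDiff ℝ 1 φ := hφ.1.of_le (by exact_mod_cast le_top)
      exact h1.comp (contDiff_fst.clm_apply contDiff_snd.neg)
    exact this.contDiffOn

theorem det_ne_zero_of_isUnit {k : ℕ} {P : E k →L[ℝ] E k} (hP : IsUnit P) :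
    LinearMap.det (P : E k →ₗ[ℝ] E k) ≠ 0 := by
  obtain ⟨u, rfl⟩ := hP
  have h : LinearMap.det ((u : E k →L[ℝ] E k) : E k →ₗ[ℝ] E k) *
      LinearMap.det (((u⁻¹ : (E k →L[ℝ] E k)ˣ) : E k →L[ℝ] E k) : E k →ₗ[ℝ] E k) = 1 := by
    rw [← LinearMap.det_comp]
    have : ((u : E k →L[ℝ] E k) : E k →ₗ[ℝ] E k) ∘ₗ
        (((u⁻¹ : (E k →L[ℝ] E k)ˣ) : E k →L[ℝ] E k) : E k →ₗ[ℝ] E k) = LinearMap.id := by
      refine LinearMap.ext fun x => ?_
      exact DFunLike.congr_fun u.mul_inv x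
    rw [this, LinearMap.det_id]
  exact left_ne_zero_of_mul_eq_one h

/-- The functional `A ↦ ∫ f (A x) φ x` is smooth near the identity. -/
theorem contDiffAt_T {k : ℕ} {f φ : E k → ℝ} (hf : Continuous f) (hφ : Test φ) :
    ContDiffAt ℝ 1 (fun A : E k →L[ℝ] E k => ∫ x, f (A x) * φ x) 1 := by
  have hinv1 : Ring.inverse (1 : E k →L[ℝ] E k) = 1 := Ring.inverse_one _
  have hi : ContDiffAt ℝ 1 (Ring.inverse : (E k →L[ℝ] E k) → (E k →L[ℝ] E k)) 1 := by
    have := contDiffAt_ringInverse ℝ (n := 1) (1 : (E k →L[ℝ] E k)ˣ)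
    simpa using this
  have h1 : ContDiffAt ℝ 1 (fun A : E k →L[ℝ] E k =>
      ∫ y, f y * φ ((Ring.inverse A) y)) 1 := by
    have h2 : ContDiffAt ℝ 1 (fun P : E k →L[ℝ] E k => ∫ y, f y * φ (P y)) (Ring.inverse 1) := by
      rw [hinv1]
      exact (contDiffOn_G hf hφ).contDiffAt (isOpen_ball.mem_nhds (mem_ball_self (by norm_num)))
    exact h2.comp 1 hi
  have h3 : ContDiffAt ℝ 1 (fun A : E k →L[ℝ] E k =>
      LinearMap.det ((Ring.inverse A : E k →L[ℝ] E k) : E k →ₗ[ℝ] E k)) 1 :=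
    (contDiff_det (n := 1)).contDiffAt.comp 1 hi
  have h4 := h3.mul h1
  refine h4.congr_of_eventuallyEq ?_
  have h5 : ∀ᶠ A : E k →L[ℝ] E k in nhds 1, IsUnit A :=
    Units.isOpen.mem_nhds isUnit_one
  have h6 : ∀ᶠ A : E k →L[ℝ] E k in nhds 1,
      0 < LinearMap.det ((Ring.inverse A : E k →L[ℝ] E k) : E k →ₗ[ℝ] E k) := by
    have hc : ContinuousAt (fun A : E k →L[ℝ] E k =>
      LinearMap.det ((Ring.inverse A : E k →L[ℝ] E k) : E k →ₗ[ℝ] E k)) 1 := h3.continuousAt
    have : (0 : ℝ) < LinearMap.det ((Ring.inverse (1 : E k →L[ℝ] E k) : E k →L[ℝ] E k) :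
        E k →ₗ[ℝ] E k) := by
      rw [hinv1]
      have : ((1 : E k →L[ℝ] E k) : E k →ₗ[ℝ] E k) = LinearMap.id := rfl
      rw [this, LinearMap.det_id]; norm_num
    exact hc.eventually (lt_mem_nhds this)
  filter_upwards [h5, h6] with A hA hdet
  have h7 := integral_comp_linear (Ring.inverse A) hdet.ne' (fun x => f (A x) * φ x)
    ((hf.comp A.continuous).mul hφ.1.continuous)
  rw [h7, abs_of_pos hdet]
  congr 1
  refine integral_congr_ae (Filter.Eventually.of_forall fun y => ?_)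
  have h8 : A (Ring.inverse A y) = y := by
    have : A * Ring.inverse A = 1 := Ring.mul_inverse_cancel A hA
    have := DFunLike.congr_fun this y
    simpa using this
  simp only [h8]

end Pool.Agent.H82LS
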