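import Mathlib
import Pool.Agent.H82LS.Test
import Pool.Agent.H82LS.Abs

set_option autoImplicit false

/-! A local Lipschitz section of the orbit of a gauge under linear maps (no Lie theory). -/

namespace Pool.Agent.H82LS

open MeasureTheory Set Metric Filter Topology
open scoped ContDiff NNReal
open Pool.Agent.H87Star (IsGauge)

variable {k : ℕ}

/-- The derivative at the identity of `A ↦ ∫ f (A x) φ x`. -/
noncomputable def lam (f φ : E k → ℝ) : (E k →L[ℝ] E k) →L[ℝ] ℝ :=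
  fderiv ℝ (fun A : E k →L[ℝ] E k => ∫ x, f (A x) * φ x) 1

theorem strict_T {f φ : E k → ℝ} (hf : Continuous f) (hφ : Test φ) :
    HasStrictFDerivAt (fun A : E k →L[ℝ] E k => ∫ x, f (A x) * φ x) (lam f φ) 1 :=
  (contDiffAt_T hf hφ).hasStrictFDerivAt (by simp)

theorem translate {f φ : E k → ℝ} (hf : Continuous f) (hφ : Test φ) (P : E k →L[ℝ] E k)
    (hP : IsUnit P) : ∃ c : ℝ, ∃ ψ : {φ : E k → ℝ // Test φ}, ∀ A : E k →L[ℝ] E k,
      ∫ x, f ((A * P) x) * φ x = c * ∫ x, f (A x) * ψ.1 x := by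
  have hdet := det_ne_zero_of_isUnit hP
  obtain ⟨u, hu⟩ := hP
  set P' : E k →L[ℝ] E k := ((u⁻¹ : (E k →L[ℝ] E k)ˣ) : E k →L[ℝ] E k) with hP'def
  have hP'P : ∀ y, P' (P y) = y := fun y => by
    rw [← hu]; exact DFunLike.congr_fun u.inv_mul y
  have hPP' : ∀ y, P (P' y) = y := fun y => by
    rw [← hu]; exact DFunLike.congr_fun u.mul_inv y
  have hTest : Test (fun y => φ (P' y)) := by
    refine ⟨hφ.1.comp P'.contDiff, ?_⟩
    let e : E k ≃ₜ E k :=
      { toFun := P', invFun := P, left_inv := hPP', right_inv := hP'P,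
        continuous_toFun := P'.continuous, continuous_invFun := P.continuous }
    exact hφ.2.comp_homeomorph e
  refine ⟨|LinearMap.det (P : E k →ₗ[ℝ] E k)|⁻¹, ⟨_, hTest⟩, fun A => ?_⟩
  have h5 := integral_comp_linear P hdet (fun y => f (A y) * φ (P' y))
    ((hf.comp A.continuous).mul (hφ.1.continuous.comp P'.continuous))
  show _ = _ * ∫ x, f (A x) * φ (P' x)
  rw [h5, ← mul_assoc, inv_mul_cancel₀ (abs_ne_zero.2 hdet), one_mul]
  refine integral_congr_ae (Filter.Eventually.of_forall fun y => ?_)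
  show f (A (P y)) * φ y = f (A (P y)) * φ (P' (P y))
  rw [hP'P]

/-- The exponentials of the infinitesimal stabiliser fix `f`. -/
theorem fix {f : E k → ℝ} (hf : Continuous f) (Z : E k →L[ℝ] E k)
    (hZ : ∀ φ, Test φ → lam f φ Z = 0) (x : E k) : f (NormedSpace.exp Z x) = f x := by
  have hconst : ∀ φ, Test φ → ∫ x, f (NormedSpace.exp Z x) * φ x = ∫ x, f x * φ x := by
    intro φ hφ
    have := const_of_deriv (𝔸 := E k →L[ℝ] E k) (ι := {φ : E k → ℝ // Test φ})
      (fun ψ A => ∫ x, f (A x) * ψ.1 x) (fun ψ => lam f ψ.1)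
      (fun ψ => (strict_T hf ψ.2).hasFDerivAt)
      (fun ψ P hP => translate hf ψ.2 P hP) Z (fun ψ => hZ ψ.1 ψ.2) ⟨φ, hφ⟩
    exact this
  have hae : ∀ᵐ x ∂(volume : Measure (E k)), f (NormedSpace.exp Z x) = f x := by
    refine ae_eq_of_integral_contDiff_smul_eq
      (hf.comp (NormedSpace.exp Z).continuous).locallyIntegrable hf.locallyIntegrable ?_
    intro g hg hgs
    have := hconst g ⟨hg, hgs⟩
    simpa [smul_eq_mul, mul_comm] using this
  have hfin : (fun x => f (NormedSpace.exp Z x)) = f :=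
    (Continuous.ae_eq_iff_eq (volume : Measure (E k))
      (hf.comp (NormedSpace.exp Z).continuous) hf).1 hae
  exact congrFun hfin x

theorem gauge_lin {f : E k → ℝ} (hf : IsGauge f) {A B : E k →L[ℝ] E k} {c : ℝ}
    (h : ∀ x, ‖x‖ ≤ 1 → |f (A x) - f (B x)| ≤ c) (x : E k) :
    |f (A x) - f (B x)| ≤ c * ‖x‖ := by
  rcases eq_or_ne x 0 with rfl | hx
  · simp
  · have hn : 0 < ‖x‖ := norm_pos_iff.2 hx
    have h1 := h (‖x‖⁻¹ • x) (by rw [norm_smul, norm_inv, norm_norm, inv_mul_cancel₀ hn.ne'])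
    rw [map_smul, map_smul, hf.hom _ (inv_nonneg.2 hn.le), hf.hom _ (inv_nonneg.2 hn.le),
      ← mul_sub, abs_mul, abs_of_pos (inv_pos.2 hn)] at h1
    calc |f (A x) - f (B x)| = ‖x‖ * (‖x‖⁻¹ * |f (A x) - f (B x)|) := by
          rw [← mul_assoc, mul_inv_cancel₀ hn.ne', one_mul]
      _ ≤ ‖x‖ * c := by gcongr
      _ = c * ‖x‖ := mul_comm _ _

/-- Linear maps almost preserving `f` are close to linear maps preserving `f`. -/
theorem near_stab {f : E k → ℝ} (hf : IsGauge f) (W : Set (E k →L[ℝ] E k)) (hW : W ∈ 𝓝 1) :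
    ∃ δ > 0, ∀ A : E k →L[ℝ] E k, (∀ x, ‖x‖ ≤ 1 → |f (A x) - f x| ≤ δ) →
      ∃ g a : E k →L[ℝ] E k, (∀ x, f (g x) = f x) ∧ a ∈ W ∧ ∀ x, A x = g (a x) := by
  by_contra hcon
  push Not at hcon
  obtain ⟨c, C, hc, hC, hb⟩ := hf.bounds
  have hch : ∀ n : ℕ, ∃ A : E k →L[ℝ] E k, (∀ x, ‖x‖ ≤ 1 → |f (A x) - f x| ≤ 1 / ((n : ℝ) + 1)) ∧
      ∀ g a : E k →L[ℝ] E k, (∀ x, f (g x) = f x) → a ∈ W → ∃ x, A x ≠ g (a x) := by
    intro n
    exact hcon _ (by positivity)
  choose A hA hA' using hch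
  have hmem : ∀ n, A n ∈ closedBall (0 : E k →L[ℝ] E k) ((C + 1) / c) := by
    intro n
    rw [mem_closedBall, dist_zero_right]
    refine ContinuousLinearMap.opNorm_le_of_unit_norm (by positivity) fun x hx => ?_
    have h1 := hA n x hx.le
    have h2 : (1 : ℝ) / ((n : ℝ) + 1) ≤ 1 := by
      rw [div_le_one (by positivity)]
      have : (0 : ℝ) ≤ n := Nat.cast_nonneg n
      linarith
    have h3 := (hb (A n x)).1
    have h4 := (hb x).2
    rw [hx, mul_one] at h4
    have h5 := abs_le.1 h1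
    rw [le_div_iff₀ hc]
    linarith [h5.2]
  obtain ⟨g, -, φ, hφ, hlim⟩ := (isCompact_closedBall _ _).tendsto_subseq hmem
  have hfix1 : ∀ x, ‖x‖ ≤ 1 → f (g x) = f x := by
    intro x hx
    have t1 : Tendsto (fun n => A (φ n) x) atTop (𝓝 (g x)) :=
      ((ContinuousLinearMap.apply ℝ (E k) x).continuous.tendsto g).comp hlim
    have t2 : Tendsto (fun n => f (A (φ n) x)) atTop (𝓝 (f (g x))) := (hf.cont.tendsto _).comp t1
    have t3 : Tendsto (fun n => f (A (φ n) x)) atTop (𝓝 (f x)) := by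
      rw [tendsto_iff_norm_sub_tendsto_zero]
      have t4 : Tendsto (fun n : ℕ => (1 : ℝ) / ((n : ℝ) + 1)) atTop (𝓝 0) :=
        tendsto_one_div_add_atTop_nhds_zero_nat
      refine squeeze_zero (fun _ => norm_nonneg _) (fun n => ?_) (t4.comp hφ.tendsto_atTop)
      rw [Real.norm_eq_abs]
      exact hA (φ n) x hx
    exact tendsto_nhds_unique t2 t3
  have hfix : ∀ x, f (g x) = f x := by
    intro x
    have := gauge_lin hf (A := g) (B := ContinuousLinearMap.id ℝ (E k)) (c := 0) (fun x hx => by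
      rw [hfix1 x hx]; simp) x
    rw [zero_mul] at this
    have h2 := abs_eq_zero.1 (le_antisymm this (abs_nonneg _))
    have h3 : f (g x) - f x = 0 := h2
    linarith
  have hinj : Function.Injective (g : E k →ₗ[ℝ] E k) := by
    rw [← LinearMap.ker_eq_bot, LinearMap.ker_eq_bot']
    intro x hx
    by_contra hne
    have h1 := hf.pos x hne
    have h2 : f (g x) = 0 := by
      have : g x = 0 := hx
      rw [this]
      have := hf.hom 0 le_rfl (0 : E k)
      simpa using this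
    rw [hfix] at h2
    linarith
  let e := (LinearEquiv.ofInjectiveEndo (g : E k →ₗ[ℝ] E k) hinj).toContinuousLinearEquiv
  have he : ∀ x, e x = g x := fun x => rfl
  have hlim2 : Tendsto (fun n => (e.symm : E k →L[ℝ] E k) * (A (φ n))) atTop (𝓝 1) := by
    have := hlim.const_mul (e.symm : E k →L[ℝ] E k)
    have h2 : (e.symm : E k →L[ℝ] E k) * g = 1 := by
      ext1 x
      show e.symm (g x) = x
      rw [← he, e.symm_apply_apply]
    rw [h2] at this
    exact this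
  obtain ⟨n, hn⟩ := (hlim2.eventually hW).exists
  obtain ⟨x, hx⟩ := hA' (φ n) g _ hfix hn
  apply hx
  show A (φ n) x = g (e.symm (A (φ n) x))
  rw [← he, e.apply_symm_apply]

/-- LOCAL LIPSCHITZ SECTION. -/
theorem lip_section {f : E k → ℝ} (hf : IsGauge f) :
    ∃ δ > 0, ∃ L : ℝ, ∃ σ : (E k → ℝ) → (E k →L[ℝ] E k),
      (∀ A : E k →L[ℝ] E k, (∀ x, ‖x‖ ≤ 1 → |f (A x) - f x| ≤ δ) →
        (∀ x, f (σ (fun y => f (A y)) x) = f (A x)) ∧ ‖σ (fun y => f (A y)) - 1‖ ≤ 1 / 2) ∧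
      (∀ A B : E k →L[ℝ] E k, (∀ x, ‖x‖ ≤ 1 → |f (A x) - f x| ≤ δ) →
        (∀ x, ‖x‖ ≤ 1 → |f (B x) - f x| ≤ δ) → ∀ c, (∀ x, ‖x‖ ≤ 1 → |f (A x) - f (B x)| ≤ c) →
        ‖σ (fun y => f (A y)) - σ (fun y => f (B y))‖ ≤ L * c) := by
  classical
  obtain ⟨s, hs⟩ := finite_family (𝔸 := E k →L[ℝ] E k)
    (fun ψ : {φ : E k → ℝ // Test φ} => lam f ψ.1)
  let T : (E k → ℝ) → (s → ℝ) := fun h i => ∫ x, h x * i.1.1 x
  let Tv : (E k →L[ℝ] E k) → (s → ℝ) := fun A => T (fun x => f (A x))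
  let D : (E k →L[ℝ] E k) →L[ℝ] (s → ℝ) := ContinuousLinearMap.pi fun i => lam f i.1.1
  have hTv : HasStrictFDerivAt Tv D 1 :=
    hasStrictFDerivAt_pi'.2 fun i => strict_T hf.cont i.1.2
  have hker : ∀ Z, D Z = 0 → ∀ x, f (NormedSpace.exp Z x) = f x := by
    intro Z hZ
    refine fix hf.cont Z (fun φ hφ => hs Z (fun ψ hψ => ?_) ⟨φ, hφ⟩)
    exact congrFun hZ ⟨ψ, hψ⟩
  obtain ⟨U, hU, ρ, hρ, K, Ξ, hK, hΞ, hdec⟩ := abs_section Tv D hTv
  -- the bound of the functionals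
  have hint : ∀ i : s, Integrable (fun x : E k => ‖x‖ * |i.1.1 x|) := by
    intro i
    refine Continuous.integrable_of_hasCompactSupport ?_ ?_
    · exact continuous_norm.mul i.1.2.1.continuous.abs
    · exact (i.1.2.2.comp_left (g := fun t => |t|) abs_zero).mul_left
  let M : ℝ := ∑ i : s, ∫ x, ‖x‖ * |i.1.1 x|
  have hM0 : 0 ≤ M := Finset.sum_nonneg fun i _ => integral_nonneg fun x => by positivity
  have hbound : ∀ (A B : E k →L[ℝ] E k) (c : ℝ), (∀ x, ‖x‖ ≤ 1 → |f (A x) - f (B x)| ≤ c) →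
      ‖Tv A - Tv B‖ ≤ M * c := by
    intro A B c h
    have hc0 : 0 ≤ c := (abs_nonneg _).trans (h 0 (by simp))
    rw [pi_norm_le_iff_of_nonneg (by positivity)]
    intro i
    have h1 := gauge_lin hf h
    have hi1 : ∀ A : E k →L[ℝ] E k, Integrable (fun x => f (A x) * i.1.1 x) := fun A =>
      ((hf.cont.comp A.continuous).mul i.1.2.1.continuous).integrable_of_hasCompactSupport
        i.1.2.2.mul_left
    have h2 : (Tv A - Tv B) i = ∫ x, (f (A x) - f (B x)) * i.1.1 x := by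
      show (∫ x, f (A x) * i.1.1 x) - (∫ x, f (B x) * i.1.1 x) = _
      rw [← integral_sub (hi1 A) (hi1 B)]
      refine integral_congr_ae (Filter.Eventually.of_forall fun x => ?_)
      simp only [sub_mul]
    rw [h2]
    calc ‖∫ x, (f (A x) - f (B x)) * i.1.1 x‖ ≤ ∫ x, c * (‖x‖ * |i.1.1 x|) := by
          refine norm_integral_le_of_norm_le ((hint i).const_mul c)
            (Filter.Eventually.of_forall fun x => ?_)
          rw [norm_mul, Real.norm_eq_abs, Real.norm_eq_abs, ← mul_assoc]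
          exact mul_le_mul_of_nonneg_right (h1 x) (abs_nonneg _)
      _ = c * ∫ x, ‖x‖ * |i.1.1 x| := integral_const_mul _ _
      _ ≤ c * M := by
          refine mul_le_mul_of_nonneg_left ?_ hc0
          exact Finset.single_le_sum (f := fun i : s => ∫ x : E k, ‖x‖ * |i.1.1 x|)
            (fun j _ => integral_nonneg fun x => by positivity) (Finset.mem_univ i)
      _ = M * c := mul_comm _ _
  obtain ⟨δ₁, hδ₁, hnear⟩ := near_stab hf _ hU
  have hin : ∀ A : E k →L[ℝ] E k, (∀ x, ‖x‖ ≤ 1 → |f (A x) - f x| ≤ min δ₁ (ρ / (2 * (M + 1)))) →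
      Tv A ∈ ball (Tv 1) ρ := by
    intro A hA
    rw [mem_ball, dist_eq_norm]
    have h1 := hbound A 1 (ρ / (2 * (M + 1))) fun x hx => (hA x hx).trans (min_le_right _ _)
    refine h1.trans_lt ?_
    rw [mul_div_assoc', div_lt_iff₀ (by positivity)]
    nlinarith
  refine ⟨min δ₁ (ρ / (2 * (M + 1))), lt_min hδ₁ (by positivity), K * M, fun h => Ξ (T h), ?_, ?_⟩
  · intro A hA
    refine ⟨?_, hΞ _ (hin A hA)⟩
    obtain ⟨g, a, hg, ha, hAa⟩ := hnear A fun x hx => (hA x hx).trans (min_le_left _ _)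
    obtain ⟨Z, Y, hZ, rfl, hY⟩ := hdec a ha
    have hA2 : ∀ x, f (A x) = f (NormedSpace.exp Y x) := by
      intro x
      rw [hAa, hg]
      show f (NormedSpace.exp Z (NormedSpace.exp Y x)) = _
      rw [hker Z hZ]
    have hA3 : (fun y => f (A y)) = fun y => f (NormedSpace.exp Y y) := funext hA2
    intro x
    rw [hA3, hA2]
    have h4 : Ξ (T fun y => f (NormedSpace.exp Y y)) = NormedSpace.exp Y := hY
    show f (Ξ (T fun y => f (NormedSpace.exp Y y)) x) = _
    rw [h4]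
  · intro A B hA hB c hc
    have h3 := hK.dist_le_mul _ (hin A hA) _ (hin B hB)
    rw [dist_eq_norm, dist_eq_norm] at h3
    refine h3.trans ?_
    rw [mul_assoc]
    exact mul_le_mul_of_nonneg_left (hbound A B c hc) K.2

end Pool.Agent.H82LS
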