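import Mathlib
import Pool.Agent.H82LS.Section

set_option autoImplicit false

/-! From a continuous lift to a Lipschitz lift. -/

namespace Pool.Agent.H82LS

open Set Metric Filter Topology
open scoped ContDiff NNReal
open Pool.Agent.H87Star (IsGauge)

/-- Continuous maps on compact sets are uniformly approximated by Lipschitz maps. -/
theorem lip_approx {W V : Type*} [NormedAddCommGroup W] [NormedSpace ℝ W] [FiniteDimensional ℝ W]
    [NormedAddCommGroup V] [NormedSpace ℝ V] [FiniteDimensional ℝ V] {D : Set W}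
    (hD : IsCompact D) {s : W → V} (hs : ContinuousOn s D) {ε : ℝ} (hε : 0 < ε) :
    ∃ (A : W → V) (K : ℝ≥0), LipschitzOnWith K A D ∧ ∀ w ∈ D, ‖A w - s w‖ ≤ ε := by
  have : ProperSpace W := FiniteDimensional.proper ℝ W
  have : TietzeExtension.{_, _} V := TietzeExtension.of_tvs ℝ
  obtain ⟨G, hG⟩ := ContinuousMap.exists_restrict_eq hD.isClosed
    (⟨D.domRestrict s, continuousOn_iff_continuous_domRestrict.1 hs⟩ : C(D, V))
  have hGs : ∀ w ∈ D, G w = s w := by
    intro w hw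
    exact DFunLike.congr_fun hG (⟨w, hw⟩ : D)
  obtain ⟨A, hA, hAG, -⟩ := G.continuous.exists_contDiff_approx 1
    (ε := fun _ => ε) continuous_const (fun _ => hε)
  obtain ⟨R, hR⟩ := hD.isBounded.subset_closedBall (0 : W)
  obtain ⟨C, hC⟩ := (isCompact_closedBall (0 : W) R).exists_bound_of_continuousOn
    (hA.continuous_fderiv (by simp)).continuousOn
  refine ⟨A, C.toNNReal, ?_, fun w hw => ?_⟩
  · have h1 : LipschitzOnWith C.toNNReal A (closedBall (0 : W) R) := by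
      refine (convex_closedBall 0 R).lipschitzOnWith_of_nnnorm_fderiv_le
        (𝕜 := ℝ) (fun x _ => (hA.differentiable (by simp)) x) fun x hx => ?_
      rw [← NNReal.coe_le_coe, coe_nnnorm]
      exact (hC x hx).trans (Real.le_coe_toNNReal C)
    exact h1.mono hR
  · rw [← hGs w hw, ← dist_eq_norm]
    exact (hAG w).le

theorem inv_exists {k : ℕ} {S : E k →L[ℝ] E k} (h : ‖S - 1‖ ≤ 1 / 2) :
    ∃ T : E k →L[ℝ] E k, (∀ x, T (S x) = x) ∧ (∀ x, S (T x) = x) ∧ ∀ x, ‖T x‖ ≤ 2 * ‖x‖ := by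
  have h1 : ∀ x, ‖x‖ ≤ 2 * ‖S x‖ := by
    intro x
    have h2 : ‖(S - 1) x‖ ≤ 1 / 2 * ‖x‖ :=
      ((S - 1).le_opNorm x).trans (by gcongr)
    have h3 : (S - 1) x = S x - x := rfl
    rw [h3] at h2
    have h4 : ‖x‖ ≤ ‖S x‖ + ‖S x - x‖ := by
      calc ‖x‖ = ‖S x - (S x - x)‖ := by rw [sub_sub_cancel]
        _ ≤ _ := norm_sub_le _ _
    linarith
  have hinj : Function.Injective (S : E k →ₗ[ℝ] E k) := by
    rw [← LinearMap.ker_eq_bot, LinearMap.ker_eq_bot']
    intro x hx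
    have h2 := h1 x
    have h3 : S x = 0 := hx
    rw [h3, norm_zero, mul_zero] at h2
    exact norm_le_zero_iff.1 h2
  let e := (LinearEquiv.ofInjectiveEndo (S : E k →ₗ[ℝ] E k) hinj).toContinuousLinearEquiv
  have he : ∀ x, e x = S x := fun x => rfl
  refine ⟨e.symm, fun x => ?_, fun x => ?_, fun x => ?_⟩
  · show e.symm (S x) = x
    rw [← he, e.symm_apply_apply]
  · show S (e.symm x) = x
    rw [← he, e.apply_symm_apply]
  · have := h1 (e.symm x)
    rw [← he, e.apply_symm_apply] at this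
    exact this

/-- A CONTINUOUS LIFT GIVES A LIPSCHITZ LIFT. -/
theorem lip_lift {k n : ℕ} {W : Type*} [NormedAddCommGroup W] [NormedSpace ℝ W]
    [FiniteDimensional ℝ W] {D : Set W} (hD : IsCompact D) {f : E k → ℝ} (hf : IsGauge f)
    {F : E n → ℝ} {LF : ℝ} (hF : ∀ y y', |F y - F y'| ≤ LF * ‖y - y'‖)
    {s₀ : W → E k →L[ℝ] E n} (hs : ContinuousOn s₀ D)
    (hsF : ∀ w ∈ D, ∀ x, F (s₀ w x) = f x)
    {P : W → E n →L[ℝ] E n} {KP : ℝ≥0} (hP : LipschitzOnWith KP P D)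
    (hPr : ∀ w ∈ D, ∀ y, ∃ x, P w y = s₀ w x) (hPs : ∀ w ∈ D, ∀ x, P w (s₀ w x) = s₀ w x) :
    ∃ (s : W → E k →L[ℝ] E n) (K : ℝ≥0), LipschitzOnWith K s D ∧
      (∀ w ∈ D, ∀ x, F (s w x) = f x) ∧ ∀ w ∈ D, ∀ x, ∃ x', s w x = s₀ w x' := by
  classical
  obtain ⟨δ, hδ, L, σ, hσ1, hσ2⟩ := lip_section hf
  -- bounds
  obtain ⟨CP, hCP⟩ := hD.exists_bound_of_continuousOn hP.continuousOn
  have hLF : 0 ≤ |LF| := abs_nonneg _
  have hF' : ∀ y y', |F y - F y'| ≤ |LF| * ‖y - y'‖ := fun y y' =>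
    (hF y y').trans (mul_le_mul_of_nonneg_right (le_abs_self _) (norm_nonneg _))
  have hε : 0 < δ / ((|LF| + 1) * (|CP| + 1)) := by positivity
  obtain ⟨A₁, K₁, hA₁, hA₁s⟩ := lip_approx hD hs hε
  obtain ⟨C₁, hC₁⟩ := hD.exists_bound_of_continuousOn hA₁.continuousOn
  let A : W → E k →L[ℝ] E n := fun w => (P w).comp (A₁ w)
  have hAs : ∀ w ∈ D, ∀ x, ‖x‖ ≤ 1 → |F (A w x) - F (s₀ w x)| ≤ δ := by
    intro w hw x hx
    refine (hF' _ _).trans ?_
    have h1 : A w x - s₀ w x = P w ((A₁ w - s₀ w) x) := by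
      show P w (A₁ w x) - s₀ w x = P w (A₁ w x - s₀ w x)
      rw [map_sub, hPs w hw]
    have h2 : ‖A w x - s₀ w x‖ ≤ |CP| * (δ / ((|LF| + 1) * (|CP| + 1))) := by
      rw [h1]
      refine ((P w).le_opNorm _).trans ?_
      refine mul_le_mul ((hCP w hw).trans (le_abs_self _)) ?_ (norm_nonneg _) (abs_nonneg _)
      refine ((A₁ w - s₀ w).le_opNorm x).trans ?_
      calc ‖A₁ w - s₀ w‖ * ‖x‖ ≤ (δ / ((|LF| + 1) * (|CP| + 1))) * 1 := by
            gcongr
            exact hA₁s w hw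
        _ = _ := mul_one _
    calc |LF| * ‖A w x - s₀ w x‖ ≤ |LF| * (|CP| * (δ / ((|LF| + 1) * (|CP| + 1)))) := by gcongr
      _ = δ * ((|LF| / (|LF| + 1)) * (|CP| / (|CP| + 1))) := by
          have h1 : |LF| + 1 ≠ 0 := by positivity
          have h2 : |CP| + 1 ≠ 0 := by positivity
          field_simp
      _ ≤ δ * (1 * 1) := by
          gcongr
          · rw [div_le_one (by positivity)]; linarith
          · rw [div_le_one (by positivity)]; linarith
      _ = δ := by ring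
  -- the comparison maps
  have hB : ∀ w ∈ D, ∃ B : E k →L[ℝ] E k, ∀ x, A w x = s₀ w (B x) := by
    intro w hw
    have hinj : Function.Injective (s₀ w : E k →ₗ[ℝ] E n) := by
      rw [← LinearMap.ker_eq_bot, LinearMap.ker_eq_bot']
      intro x hx
      by_contra hne
      have h1 := hf.pos x hne
      have h2 : s₀ w x = s₀ w 0 := by
        have : s₀ w x = 0 := hx
        rw [this, map_zero]
      have h3 := hsF w hw x
      rw [h2, hsF w hw] at h3
      have h4 : f 0 = 0 := by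
        have := hf.hom 0 le_rfl (0 : E k)
        simpa using this
      rw [h4] at h3
      exact absurd h3 h1.ne
    let e := LinearEquiv.ofInjective (s₀ w : E k →ₗ[ℝ] E n) hinj
    have hmem : ∀ x, (A w : E k →ₗ[ℝ] E n) x ∈ LinearMap.range (s₀ w : E k →ₗ[ℝ] E n) := by
      intro x
      obtain ⟨x', hx'⟩ := hPr w hw (A₁ w x)
      exact ⟨x', hx'.symm⟩
    let B₀ : E k →ₗ[ℝ] E k := e.symm.toLinearMap ∘ₗ
      ((A w : E k →ₗ[ℝ] E n).codRestrict _ hmem)
    refine ⟨LinearMap.toContinuousLinearMap B₀, fun x => ?_⟩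
    have h1 : e (B₀ x) = (A w : E k →ₗ[ℝ] E n).codRestrict _ hmem x := by
      show e (e.symm _) = _
      rw [e.apply_symm_apply]
    have h2 := congrArg Subtype.val h1
    exact h2.symm
  choose! B hB using hB
  have hBf : ∀ w ∈ D, (fun x => F (A w x)) = fun x => f (B w x) := by
    intro w hw
    funext x
    rw [hB w hw, hsF w hw]
  have hBδ : ∀ w ∈ D, ∀ x, ‖x‖ ≤ 1 → |f (B w x) - f x| ≤ δ := by
    intro w hw x hx
    have := hAs w hw x hx
    rwa [congrFun (hBf w hw) x, hsF w hw] at this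
  let S : W → E k →L[ℝ] E k := fun w => σ (fun x => F (A w x))
  have hS1 : ∀ w ∈ D, (∀ x, f (S w x) = F (A w x)) ∧ ‖S w - 1‖ ≤ 1 / 2 := by
    intro w hw
    have h1 := hσ1 (B w) (hBδ w hw)
    show (∀ x, f (σ (fun x => F (A w x)) x) = F (A w x)) ∧ ‖σ (fun x => F (A w x)) - 1‖ ≤ 1 / 2
    rw [hBf w hw]
    refine ⟨fun x => ?_, h1.2⟩
    rw [h1.1 x]
    exact (congrFun (hBf w hw) x).symm
  -- Lipschitz bounds
  have hAL : ∀ w ∈ D, ∀ w' ∈ D, ‖A w - A w'‖ ≤ (|CP| * K₁ + |C₁| * KP) * ‖w - w'‖ := by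
    intro w hw w' hw'
    have h1 : A w - A w' = (P w).comp (A₁ w - A₁ w') + (P w - P w').comp (A₁ w') := by
      ext1 x
      simp [A]
    rw [h1]
    have e1 : ‖(P w).comp (A₁ w - A₁ w')‖ ≤ |CP| * (K₁ * ‖w - w'‖) := by
      refine (ContinuousLinearMap.opNorm_comp_le _ _).trans ?_
      have := hA₁.dist_le_mul _ hw _ hw'
      rw [dist_eq_norm, dist_eq_norm] at this
      exact mul_le_mul ((hCP w hw).trans (le_abs_self _)) this (norm_nonneg _) (abs_nonneg _)
    have e2 : ‖(P w - P w').comp (A₁ w')‖ ≤ (KP * ‖w - w'‖) * |C₁| := by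
      refine (ContinuousLinearMap.opNorm_comp_le _ _).trans ?_
      have := hP.dist_le_mul _ hw _ hw'
      rw [dist_eq_norm, dist_eq_norm] at this
      exact mul_le_mul this ((hC₁ w' hw').trans (le_abs_self _)) (norm_nonneg _) (by positivity)
    calc _ ≤ _ := norm_add_le _ _
      _ ≤ |CP| * (K₁ * ‖w - w'‖) + (KP * ‖w - w'‖) * |C₁| := add_le_add e1 e2
      _ = _ := by ring
  set KA : ℝ := |CP| * K₁ + |C₁| * KP with hKA
  have hKA0 : 0 ≤ KA := by positivity
  have hSL : ∀ w ∈ D, ∀ w' ∈ D, ‖S w - S w'‖ ≤ |L| * (|LF| * (KA * ‖w - w'‖)) := by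
    intro w hw w' hw'
    have h1 := hσ2 (B w) (B w') (hBδ w hw) (hBδ w' hw') (|LF| * (KA * ‖w - w'‖)) ?_
    · show ‖σ (fun x => F (A w x)) - σ (fun x => F (A w' x))‖ ≤ _
      rw [hBf w hw, hBf w' hw']
      exact h1.trans (mul_le_mul_of_nonneg_right (le_abs_self _) (by positivity))
    · intro x hx
      rw [← congrFun (hBf w hw) x, ← congrFun (hBf w' hw') x]
      refine (hF' _ _).trans ?_
      gcongr
      have : A w x - A w' x = (A w - A w') x := rfl
      rw [this]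
      refine ((A w - A w').le_opNorm x).trans ?_
      calc ‖A w - A w'‖ * ‖x‖ ≤ (KA * ‖w - w'‖) * 1 := by
            gcongr
            exact hAL w hw w' hw'
        _ = _ := mul_one _
  have hT : ∀ w ∈ D, ∃ T : E k →L[ℝ] E k, (∀ x, T (S w x) = x) ∧ (∀ x, S w (T x) = x) ∧
      ∀ x, ‖T x‖ ≤ 2 * ‖x‖ := fun w hw => inv_exists (hS1 w hw).2
  choose! T hT using hT
  have hTn : ∀ w ∈ D, ‖T w‖ ≤ 2 := fun w hw =>
    ContinuousLinearMap.opNorm_le_bound _ (by norm_num) (hT w hw).2.2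
  have hTL : ∀ w ∈ D, ∀ w' ∈ D, ‖T w - T w'‖ ≤ 4 * (|L| * (|LF| * (KA * ‖w - w'‖))) := by
    intro w hw w' hw'
    refine ContinuousLinearMap.opNorm_le_bound _ (by positivity) fun x => ?_
    have h1 : (T w - T w') x = T w ((S w' - S w) (T w' x)) := by
      show T w x - T w' x = T w (S w' (T w' x) - S w (T w' x))
      rw [map_sub, (hT w hw).1, (hT w' hw').2.1]
    rw [h1]
    calc ‖T w ((S w' - S w) (T w' x))‖ ≤ 2 * ‖(S w' - S w) (T w' x)‖ := (hT w hw).2.2 _
      _ ≤ 2 * (‖S w' - S w‖ * ‖T w' x‖) := by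
          gcongr
          exact (S w' - S w).le_opNorm _
      _ ≤ 2 * ((|L| * (|LF| * (KA * ‖w - w'‖))) * (2 * ‖x‖)) := by
          have e1 := hSL w' hw' w hw
          rw [norm_sub_rev w' w] at e1
          have e2 := (hT w' hw').2.2 x
          gcongr
      _ = _ := by ring
  have hAn : ∀ w ∈ D, ‖A w‖ ≤ |CP| * |C₁| := fun w hw =>
    (ContinuousLinearMap.opNorm_comp_le _ _).trans
      (mul_le_mul ((hCP w hw).trans (le_abs_self _)) ((hC₁ w hw).trans (le_abs_self _))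
        (norm_nonneg _) (abs_nonneg _))
  refine ⟨fun w => (A w).comp (T w), _, LipschitzOnWith.of_dist_le_mul
    (K := ⟨|CP| * |C₁| * (4 * (|L| * (|LF| * KA))) + KA * 2, by positivity⟩) ?_, ?_, ?_⟩
  · intro w hw w' hw'
    rw [dist_eq_norm, dist_eq_norm]
    have h1 : (A w).comp (T w) - (A w').comp (T w') =
        (A w).comp (T w - T w') + (A w - A w').comp (T w') := by
      ext1 x
      simp
    rw [h1]
    have e1 : ‖(A w).comp (T w - T w')‖ ≤
        (|CP| * |C₁|) * (4 * (|L| * (|LF| * (KA * ‖w - w'‖)))) :=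
      (ContinuousLinearMap.opNorm_comp_le _ _).trans
        (mul_le_mul (hAn w hw) (hTL w hw w' hw') (norm_nonneg _) (by positivity))
    have e2 : ‖(A w - A w').comp (T w')‖ ≤ (KA * ‖w - w'‖) * 2 :=
      (ContinuousLinearMap.opNorm_comp_le _ _).trans
        (mul_le_mul (hAL w hw w' hw') (hTn w' hw') (norm_nonneg _) (by positivity))
    calc _ ≤ _ := norm_add_le _ _
      _ ≤ _ := add_le_add e1 e2
      _ = (|CP| * |C₁| * (4 * (|L| * (|LF| * KA))) + KA * 2) * ‖w - w'‖ := by ring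
  · intro w hw x
    show F (A w (T w x)) = f x
    rw [← (hS1 w hw).1, (hT w hw).2.1]
  · intro w hw x
    exact ⟨B w (T w x), hB w hw _⟩

end Pool.Agent.H82LS
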